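import Pool.Agent.REV.StmtsV3
import Pool.Agent.Helper96_REV.VNE

/-!
# Row VN3 of squad REV: the next density in the variable b, n = 3
-/

set_option autoImplicit false

namespace Pool.Agent.REV.H28

open Set MeasureTheory Filter
open scoped Topology
open Pool.Agent.REV.H96

lemma val3 {C σ : ℝ} {f f' : ℝ → ℝ} (h : StU 3 C σ f f') {β : ℝ} (hβ : 0 < β) :
    f' (g0 β) = σ * (C * (RB 3 f (cb β) * RA 3 f (cb β))) := by
  have hm : g0 β ∈ Icc (0 : ℝ) 1 := by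
    refine ⟨(g0_pos β).le, ?_⟩
    rw [← g0_zero]
    exact (g0_lt le_rfl hβ).le
  rw [h _ hm]
  unfold TT
  rw [one_sub, Real.sqrt_sq (cb_pos hβ).le]
  have : 3 - 1 - 1 = 1 := rfl
  rw [this]
  ring

lemma dph3_eq (f : ℝ → ℝ) {β : ℝ} (hβ : 0 < β) : dph 3 f β =
    2 * (cb β * RA 3 f (cb β)) * (RB 3 f (cb β) / Real.sqrt (1 + β ^ 2) ^ 3) := by
  have h1 : 3 - 2 = 1 := rfl
  have hS := (S_pos β).ne'
  unfold dph yb zb
  rw [h1, pow_one]
  have h2 : cb β ^ 3 = β ^ 3 / Real.sqrt (1 + β ^ 2) ^ 3 := by rw [cb, div_pow]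
  rw [h2]
  push_cast
  field_simp
  ring

lemma c33_eq (C : ℝ) : c3 3 C * 2 = C := by
  unfold c3
  push_cast
  ring

lemma dph3_le {f : ℝ → ℝ} {M : ℝ} (hM : 0 ≤ M) {β : ℝ} (hβ : 0 < β) (h1 : yb 3 f β ≤ M)
    (h2 : zb 3 f β ≤ M) (h3 : 0 ≤ zb 3 f β) : dph 3 f β ≤ 2 * M ^ 2 * (β ^ 3)⁻¹ := by
  have hi : 0 ≤ (β ^ 3)⁻¹ := by positivity
  have e : dph 3 f β = 2 * (yb 3 f β * zb 3 f β) * (β ^ 3)⁻¹ := by
    unfold dph
    have h1 : 3 - 2 = 1 := rfl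
    rw [h1, pow_one]
    push_cast
    ring
  rw [e]
  have h4 : yb 3 f β * zb 3 f β ≤ M * M := mul_le_mul h1 h2 h3 hM
  have h5 : 2 * (yb 3 f β * zb 3 f β) ≤ 2 * M ^ 2 := by nlinarith
  exact mul_le_mul_of_nonneg_right h5 hi

/-- derivative of the square root of `wb` -/
lemma wb_deriv {b β : ℝ} (hb : 0 < b) (hβ : 1 / b < β) :
    HasDerivAt (fun s : ℝ => wb b s ^ (1 / 2 : ℝ))
      (wb b β ^ (-(1 / 2) : ℝ) * ((b ^ 2)⁻¹ * (β ^ 3)⁻¹)) β := by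
  have hb1 : 0 < 1 / b := by positivity
  have hβ0 : 0 < β := hb1.trans hβ
  have hbβ : 1 < b * β := by
    rw [div_lt_iff₀ hb] at hβ
    linarith
  have hw : 0 < wb b β := by
    unfold wb
    have h2 : 1 < (b * β) ^ 2 := by nlinarith
    have h3 : ((b * β) ^ 2)⁻¹ < 1 := inv_lt_one_of_one_lt₀ h2
    linarith
  have h1 : HasDerivAt (fun s : ℝ => wb b s) (2 * ((b ^ 2)⁻¹ * (β ^ 3)⁻¹)) β := by
    unfold wb
    have h3 : HasDerivAt (fun s : ℝ => (b * s) ^ 2) (2 * (b * β) ^ 1 * b) β := by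
      have h4 : HasDerivAt (fun s : ℝ => b * s) b β := by
        simpa using (hasDerivAt_id β).const_mul b
      simpa using h4.fun_pow 2
    have h5 := (h3.inv (by positivity)).const_sub 1
    have h6 : -(-(2 * (b * β) ^ 1 * b) / ((b * β) ^ 2) ^ 2) = 2 * ((b ^ 2)⁻¹ * (β ^ 3)⁻¹) := by
      field_simp
    rw [h6] at h5
    exact h5
  have h2 := h1.rpow_const (p := (1 / 2 : ℝ)) (Or.inl hw.ne')
  have e1 : (1 / 2 : ℝ) - 1 = -(1 / 2) := by norm_num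
  rw [e1] at h2
  have e2 : 2 * ((b ^ 2)⁻¹ * (β ^ 3)⁻¹) * (1 / 2 : ℝ) * wb b β ^ (-(1 / 2) : ℝ) =
      wb b β ^ (-(1 / 2) : ℝ) * ((b ^ 2)⁻¹ * (β ^ 3)⁻¹) := by ring
  rw [e2] at h2
  exact h2

lemma wb_int {b : ℝ} (hb : 0 < b) :
    IntegrableOn (fun β : ℝ => wb b β ^ (-(1 / 2) : ℝ) * ((b ^ 2)⁻¹ * (β ^ 3)⁻¹)) (Ioi (1 / b)) := by
  have hb1 : 0 < 1 / b := by positivity
  have hc : ContinuousAt (fun s : ℝ => wb b s ^ (1 / 2 : ℝ)) (1 / b) := by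
    have h1 : ContinuousAt (fun s : ℝ => wb b s) (1 / b) := by
      unfold wb
      refine ContinuousAt.sub continuousAt_const (ContinuousAt.inv₀ (by fun_prop) ?_)
      positivity
    exact h1.rpow_const (Or.inr (by norm_num))
  refine integrableOn_Ioi_deriv_of_nonneg (g := fun s : ℝ => wb b s ^ (1 / 2 : ℝ)) (l := 1)
    hc.continuousWithinAt (fun x hx => wb_deriv hb hx) ?_ ?_
  · intro x hx
    have hx0 : 0 < x := hb1.trans hx
    exact mul_nonneg (Real.rpow_nonneg (wb_mem hb hx).1 _) (by positivity)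
  · have h1 : Tendsto (fun s : ℝ => wb b s) atTop (𝓝 1) := by
      unfold wb
      have h2 : Tendsto (fun s : ℝ => (b * s) ^ 2) atTop atTop :=
        (tendsto_pow_atTop two_ne_zero).comp (tendsto_id.const_mul_atTop hb)
      have h3 := h2.inv_tendsto_atTop.const_sub (1 : ℝ)
      simpa using h3
    have h4 := h1.rpow_const (p := (1 / 2 : ℝ)) (Or.inl one_ne_zero)
    simpa using h4

lemma int3 (vd : Vd3Stmt) (vm : Vm3Stmt) {f : ℝ → ℝ} (hf : Prf f) {b : ℝ} (hb : 0 < b) :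
    IntegrableOn (fun β : ℝ => wb b β ^ (1 / 2 : ℝ) * (β * dph 3 f β)) (Ioi (1 / b)) ∧
    IntegrableOn (fun β : ℝ => wb b β ^ (-(1 / 2) : ℝ) * (β⁻¹ * dph 3 f β)) (Ioi (1 / b)) := by
  obtain ⟨v1, v2, v3⟩ := vd f hf
  obtain ⟨_, _, l3, l4, ⟨M, hM, hMb⟩, _, l7, _, _⟩ := vm f hf
  have hb1 : 0 < 1 / b := by positivity
  have hsub : Ioi (1 / b) ⊆ Ioi (0 : ℝ) := Ioi_subset_Ioi hb1.le
  have hmw : ∀ p : ℝ, Measurable fun β : ℝ => wb b β ^ p := by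
    intro p
    unfold wb
    exact Measurable.pow_const (by fun_prop) p
  have hmd : AEStronglyMeasurable (dph 3 f) (volume.restrict (Ioi (1 / b))) :=
    (v3.mono hsub).aestronglyMeasurable measurableSet_Ioi
  have hm1 : AEStronglyMeasurable (fun β : ℝ => wb b β ^ (1 / 2 : ℝ) * (β * dph 3 f β))
      (volume.restrict (Ioi (1 / b))) :=
    (hmw _).aestronglyMeasurable.mul (measurable_id.aestronglyMeasurable.mul hmd)
  have hm2 : AEStronglyMeasurable (fun β : ℝ => wb b β ^ (-(1 / 2) : ℝ) * (β⁻¹ * dph 3 f β))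
      (volume.restrict (Ioi (1 / b))) :=
    (hmw _).aestronglyMeasurable.mul (measurable_inv.aestronglyMeasurable.mul hmd)
  have hle : ∀ β : ℝ, 0 < β → dph 3 f β ≤ 2 * M ^ 2 * (β ^ 3)⁻¹ := fun β hβ =>
    dph3_le hM hβ (hMb β hβ.le).2.1 (hMb β hβ.le).2.2 (v1 β hβ).2.2.1
  constructor
  · have hi : IntegrableOn (fun β : ℝ => (2 * M ^ 2) * β ^ (-2 : ℝ)) (Ioi (1 / b)) :=
      (integrableOn_Ioi_rpow_of_lt (by norm_num) hb1).const_mul _
    refine Integrable.mono' hi hm1 ?_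
    filter_upwards [self_mem_ae_restrict (μ := volume) (measurableSet_Ioi (a := 1 / b))] with β hβ
    have hβ0 : 0 < β := hb1.trans hβ
    obtain ⟨w0, w1⟩ := wb_mem hb hβ
    have w0' : 0 ≤ wb b β ^ (1 / 2 : ℝ) := Real.rpow_nonneg w0 _
    have w1' : wb b β ^ (1 / 2 : ℝ) ≤ 1 := Real.rpow_le_one w0 w1 (by norm_num)
    have hd0 := (v1 β hβ0).2.2.2
    rw [Real.norm_of_nonneg (mul_nonneg w0' (mul_nonneg hβ0.le hd0))]
    have h1 : wb b β ^ (1 / 2 : ℝ) * (β * dph 3 f β) ≤ 1 * (β * dph 3 f β) :=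
      mul_le_mul_of_nonneg_right w1' (mul_nonneg hβ0.le hd0)
    refine h1.trans ?_
    rw [one_mul]
    have e1 : β ^ (-2 : ℝ) = (β ^ 2)⁻¹ := by
      rw [Real.rpow_neg hβ0.le]
      norm_num
    rw [e1]
    calc β * dph 3 f β ≤ β * (2 * M ^ 2 * (β ^ 3)⁻¹) :=
          mul_le_mul_of_nonneg_left (hle β hβ0) hβ0.le
      _ = 2 * M ^ 2 * (β ^ 2)⁻¹ := by field_simp
  · have hi : IntegrableOn (fun β : ℝ => (2 * M ^ 2 * b * b ^ 2) *
        (wb b β ^ (-(1 / 2) : ℝ) * ((b ^ 2)⁻¹ * (β ^ 3)⁻¹))) (Ioi (1 / b)) :=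
      (wb_int hb).const_mul _
    refine Integrable.mono' hi hm2 ?_
    filter_upwards [self_mem_ae_restrict (μ := volume) (measurableSet_Ioi (a := 1 / b))] with β hβ
    have hβ0 : 0 < β := hb1.trans hβ
    have w0' : 0 ≤ wb b β ^ (-(1 / 2) : ℝ) := Real.rpow_nonneg (wb_mem hb hβ).1 _
    have hd0 := (v1 β hβ0).2.2.2
    have hi0 : 0 ≤ β⁻¹ := (inv_pos.2 hβ0).le
    rw [Real.norm_of_nonneg (mul_nonneg w0' (mul_nonneg hi0 hd0))]
    have h2 : β⁻¹ ≤ b := by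
      have h3 : β⁻¹ ≤ (1 / b)⁻¹ := inv_anti₀ hb1 (le_of_lt hβ)
      rwa [one_div, inv_inv] at h3
    have h4 : β⁻¹ * dph 3 f β ≤ b * (2 * M ^ 2 * (β ^ 3)⁻¹) :=
      mul_le_mul h2 (hle β hβ0) hd0 hb.le
    calc wb b β ^ (-(1 / 2) : ℝ) * (β⁻¹ * dph 3 f β)
        ≤ wb b β ^ (-(1 / 2) : ℝ) * (b * (2 * M ^ 2 * (β ^ 3)⁻¹)) :=
          mul_le_mul_of_nonneg_left h4 w0'
      _ = (2 * M ^ 2 * b * b ^ 2) * (wb b β ^ (-(1 / 2) : ℝ) * ((b ^ 2)⁻¹ * (β ^ 3)⁻¹)) := by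
          field_simp

lemma sq_half {x : ℝ} (hx : 0 ≤ x) : (x ^ 2) ^ (1 / 2 : ℝ) = x := by
  rw [← Real.sqrt_eq_rpow, Real.sqrt_sq hx]

lemma sq_neg_half {x : ℝ} (hx : 0 ≤ x) : (x ^ 2) ^ (-(1 / 2) : ℝ) = x⁻¹ := by
  rw [Real.rpow_neg (sq_nonneg x), sq_half hx]

theorem vn3 (crc : CrcStmt) (vd : Vd3Stmt) (vm : Vm3Stmt) : Vn3Stmt := by
  intro C σ f f' hC hσ hf hf' hst
  have x1 : ((((3 : ℕ) : ℝ) - 2) / 2) = 1 / 2 := by push_cast; ring
  have x2 : ((((3 : ℕ) : ℝ) - 4) / 2) = -(1 / 2) := by push_cast; ring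
  have x3 : ((((3 : ℕ) : ℝ) - 3) / 2) = 0 := by push_cast; ring
  have hc3 := c33_eq C
  constructor
  · intro b hb
    have hcb0 := cb_pos hb
    have hb1 : 0 < 1 / b := by positivity
    have hcb1 : cb b ≤ 1 := by
      rw [← g0_inv hb]
      exact (g0_lt le_rfl hb1).le.trans_eq g0_zero
    obtain ⟨c1, c2⟩ := crc 3 f' (cb b) hcb0 hcb1
    rw [x1] at c1
    rw [x2] at c2
    obtain ⟨i1, i2⟩ := int3 vd vm hf hb
    refine ⟨i1, ?_, i2, ?_⟩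
    · have e1 : yb 3 f' b = cb b * RA 3 f' (cb b) := rfl
      rw [e1, c1, ← g0_inv hb, subst hb1.le, g0_inv hb, ← integral_const_mul]
      refine setIntegral_congr_fun measurableSet_Ioi fun β hβ => ?_
      have hβ0 : 0 < β := hb1.trans hβ
      have e2 : (1 - g0 β ^ 2 / cb b ^ 2) ^ (1 / 2 : ℝ) = cb β * wb b β ^ (1 / 2 : ℝ) := by
        rw [one_sub_div hb hβ0, Real.mul_rpow (sq_nonneg _) (wb_mem hb hβ).1,
          sq_half (cb_pos hβ0).le]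
      rw [e2, val3 hst hβ0, dph3_eq f hβ0]
      nth_rewrite 1 [← hc3]
      ring
    · have e1 : zb 3 f' b = cb b ^ 3 * RB 3 f' (cb b) := rfl
      rw [e1, c2, ← g0_inv hb, subst hb1.le, g0_inv hb, ← integral_const_mul]
      refine setIntegral_congr_fun measurableSet_Ioi fun β hβ => ?_
      have hβ0 : 0 < β := hb1.trans hβ
      have hS := (S_pos β).ne'
      have hcβ := (cb_pos hβ0).ne'
      have e2 : (1 - g0 β ^ 2 / cb b ^ 2) ^ (-(1 / 2) : ℝ) =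
          (cb β)⁻¹ * wb b β ^ (-(1 / 2) : ℝ) := by
        rw [one_sub_div hb hβ0, Real.mul_rpow (sq_nonneg _) (wb_mem hb hβ).1,
          sq_neg_half (cb_pos hβ0).le]
      have e3 : β * g0 β ^ 2 * (cb β)⁻¹ = β⁻¹ * cb β := by
        rw [g0, cb]
        field_simp
      rw [e2, val3 hst hβ0, dph3_eq f hβ0]
      nth_rewrite 1 [← hc3]
      have e4 : β / Real.sqrt (1 + β ^ 2) ^ 3 * (g0 β ^ 2 * ((cb β)⁻¹ * wb b β ^
          (-(1 / 2) : ℝ)) * (σ * (c3 3 C * 2 * (RB 3 f (cb β) * RA 3 f (cb β))))) =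
          (β * g0 β ^ 2 * (cb β)⁻¹) * (wb b β ^
          (-(1 / 2) : ℝ) * (σ * (c3 3 C * 2 * (RB 3 f (cb β) * RA 3 f (cb β))))) /
          Real.sqrt (1 + β ^ 2) ^ 3 := by ring
      rw [e4, e3]
      ring
  · have l8 := (vm f hf).2.2.2.2.2.2.2.1
    rw [← l8, ← integral_const_mul]
    unfold H0
    rw [x3]
    have s1 := subst (a := 0) le_rfl (fun x => x * (1 - x ^ 2) ^ (0 : ℝ) * f' x)
    rw [g0_zero] at s1
    rw [s1]
    refine setIntegral_congr_fun measurableSet_Ioi fun β hβ => ?_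
    have hβ0 : 0 < β := hβ
    have hS := (S_pos β).ne'
    have e3 : β * g0 β = cb β := by
      rw [g0, cb]
      field_simp
    rw [Real.rpow_zero, val3 hst hβ0, dph3_eq f hβ0]
    nth_rewrite 1 [← hc3]
    have e4 : β / Real.sqrt (1 + β ^ 2) ^ 3 * (g0 β * 1 * (σ * (c3 3 C * 2 *
        (RB 3 f (cb β) * RA 3 f (cb β))))) =
        (β * g0 β) * (σ * (c3 3 C * 2 * (RB 3 f (cb β) * RA 3 f (cb β)))) /
        Real.sqrt (1 + β ^ 2) ^ 3 := by ring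
    rw [e4, e3]
    ring

end Pool.Agent.REV.H28
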