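import Pool.Agent.REV.StmtsP3

/-!
# Row PDN of squad REV: one infinitesimal step for V
-/

set_option autoImplicit false

namespace Pool.Agent.REV.H28

open Set MeasureTheory Filter
open scoped Topology

/-- the change of variables -/
noncomputable def pg (q k ε τ : ℝ) : ℝ := τ - ε * (q * k ^ 2 * τ / (k ^ 2 + q * τ ^ 2))

/-- its derivative -/
noncomputable def pg' (q k ε τ : ℝ) : ℝ :=
  1 - ε * (q * k ^ 2 * (k ^ 2 - q * τ ^ 2) / (k ^ 2 + q * τ ^ 2) ^ 2)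

lemma pg_deriv {q k ε : ℝ} (hq : 0 < q) (hk : 0 < k) (τ : ℝ) :
    HasDerivAt (pg q k ε) (pg' q k ε τ) τ := by
  have hA : k ^ 2 + q * τ ^ 2 ≠ 0 := by positivity
  have h1 : HasDerivAt (fun t : ℝ => q * k ^ 2 * t) (q * k ^ 2) τ := by
    simpa using (hasDerivAt_id τ).const_mul (q * k ^ 2)
  have h2 : HasDerivAt (fun t : ℝ => k ^ 2 + q * t ^ 2) (q * (2 * τ)) τ := by
    have h3 : HasDerivAt (fun t : ℝ => t ^ 2) (2 * τ) τ := by simpa using hasDerivAt_pow 2 τ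
    exact (h3.const_mul q).const_add (k ^ 2)
  have h3 := (h1.fun_div h2 hA).const_mul ε
  have h4 := (hasDerivAt_id τ).fun_sub h3
  have e : (1 : ℝ) - ε * ((q * k ^ 2 * (k ^ 2 + q * τ ^ 2) - q * k ^ 2 * τ * (q * (2 * τ))) /
      (k ^ 2 + q * τ ^ 2) ^ 2) = pg' q k ε τ := by
    unfold pg'
    congr 3
    ring
  rw [e] at h4
  exact h4

lemma pg'_pos {q k ε : ℝ} (hq : 0 < q) (hk : 0 < k) (hε : 0 < ε) (h : ε * (1 + q) ≤ 1) (τ : ℝ) :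
    0 < pg' q k ε τ := by
  have hA : 0 < k ^ 2 + q * τ ^ 2 := by positivity
  have h1 : q * k ^ 2 * (k ^ 2 - q * τ ^ 2) / (k ^ 2 + q * τ ^ 2) ^ 2 ≤ q := by
    rw [div_le_iff₀ (by positivity)]
    have h2 : k ^ 2 * (k ^ 2 - q * τ ^ 2) ≤ (k ^ 2 + q * τ ^ 2) ^ 2 := by
      have h3 : 0 ≤ q * τ ^ 2 := by positivity
      have h4 : 0 ≤ k ^ 2 := by positivity
      nlinarith [mul_nonneg h3 h4, mul_nonneg h3 h3]
    nlinarith
  have h2 : ε * (q * k ^ 2 * (k ^ 2 - q * τ ^ 2) / (k ^ 2 + q * τ ^ 2) ^ 2) ≤ ε * q :=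
    mul_le_mul_of_nonneg_left h1 hε.le
  unfold pg'
  nlinarith

lemma pg_ge {q k ε : ℝ} (hq : 0 < q) (hk : 0 < k) (hε : 0 < ε) {τ : ℝ} (hτ : 0 ≤ τ) :
    τ * (1 - ε * q) ≤ pg q k ε τ := by
  have hA : 0 < k ^ 2 + q * τ ^ 2 := by positivity
  have h1 : q * k ^ 2 * τ / (k ^ 2 + q * τ ^ 2) ≤ q * τ := by
    rw [div_le_iff₀ hA]
    have h3 : 0 ≤ q * τ * (q * τ ^ 2) := by positivity
    nlinarith
  have h2 := mul_le_mul_of_nonneg_left h1 hε.le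
  unfold pg
  nlinarith

lemma pg_inj {q k ε : ℝ} (hq : 0 < q) (hk : 0 < k) (hε : 0 < ε) (h : ε * (1 + q) ≤ 1) :
    StrictMono (pg q k ε) :=
  strictMono_of_deriv_pos fun τ => by
    rw [(pg_deriv hq hk τ).deriv]
    exact pg'_pos hq hk hε h τ

lemma pg_image {q k ε : ℝ} (hq : 0 < q) (hk : 0 < k) (hε : 0 < ε) (h : ε * (1 + q) ≤ 1) :
    pg q k ε '' Ioi 0 = Ioi 0 := by
  have hεq : 0 < 1 - ε * q := by nlinarith
  have h0 : pg q k ε 0 = 0 := by simp [pg]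
  ext y
  constructor
  · rintro ⟨τ, hτ, rfl⟩
    have hτ' : 0 < τ := hτ
    exact lt_of_lt_of_le (mul_pos hτ' hεq) (pg_ge hq hk hε hτ'.le)
  · intro hy
    have hy' : 0 < y := hy
    have hT : 0 ≤ y / (1 - ε * q) := by positivity
    have hc : ContinuousOn (pg q k ε) (Icc 0 (y / (1 - ε * q))) :=
      fun τ _ => (pg_deriv hq hk τ).continuousAt.continuousWithinAt
    have h2 : y ≤ pg q k ε (y / (1 - ε * q)) := by
      have := pg_ge (q := q) (k := k) (ε := ε) hq hk hε hT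
      rwa [div_mul_cancel₀ _ hεq.ne'] at this
    have h1 := intermediate_value_Icc hT hc
    have h3 : y ∈ Icc (pg q k ε 0) (pg q k ε (y / (1 - ε * q))) := ⟨by rw [h0]; exact hy'.le, h2⟩
    obtain ⟨τ, hτ, hτy⟩ := h1 h3
    refine ⟨τ, ?_, hτy⟩
    rcases hτ.1.lt_or_eq with h4 | h4
    · exact h4
    · rw [← h4, h0] at hτy
      exact absurd hτy hy'.ne

/-- the pointwise estimate -/
lemma pdn_pt (pdj : PdjStmt) {M q : ℝ} {U : ℝ → ℝ} (hq : 0 < q) (hU : UU M U)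
    (hs : ∀ s s' : ℝ, 0 < s → s ≤ s' → U s' ≤ (s' / s) ^ q * U s) {k ε : ℝ} (hk : 0 < k)
    (hε : 0 < ε) (h : ε * (1 + q) ≤ 1) {τ : ℝ} (hτ : 0 < τ) :
    |pg' q k ε τ| • U (Real.sqrt ((k * (1 + ε)) ^ 2 + pg q k ε τ ^ 2)) ≤
      Real.exp ((q / 2 - q / (4 * (1 + q))) * ε + q * (1 + q) * ε ^ 2) *
        U (Real.sqrt (k ^ 2 + τ ^ 2)) := by
  rw [smul_eq_mul, abs_of_pos (pg'_pos hq hk hε h τ)]
  obtain ⟨θ, rfl⟩ : ∃ θ, τ = k * θ := ⟨τ / k, by field_simp⟩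
  have hθ : 0 < θ := by
    rcases (mul_pos_iff.1 hτ) with h1 | h1
    · exact h1.2
    · exact absurd h1.1 (not_lt.2 hk.le)
  have hA : 0 < 1 + q * θ ^ 2 := by positivity
  have hB : 0 < 1 + θ ^ 2 := by positivity
  set ξ : ℝ := -(q * θ / (1 + q * θ ^ 2)) with hξ
  set ξ' : ℝ := -(q * (1 - q * θ ^ 2) / (1 + q * θ ^ 2) ^ 2) with hξ'
  set X : ℝ := (2 * ε / (1 + q * θ ^ 2) + ε ^ 2 * (1 + ξ ^ 2)) / (1 + θ ^ 2) with hX
  have hX0 : 0 ≤ X := by positivity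
  have e1 : pg q k ε (k * θ) = k * (θ + ε * ξ) := by
    rw [hξ]
    unfold pg
    have e : k ^ 2 + q * (k * θ) ^ 2 = k ^ 2 * (1 + q * θ ^ 2) := by ring
    rw [e]
    field_simp
    ring
  have e2 : pg' q k ε (k * θ) = 1 + ε * ξ' := by
    rw [hξ']
    unfold pg'
    have e : k ^ 2 + q * (k * θ) ^ 2 = k ^ 2 * (1 + q * θ ^ 2) := by ring
    rw [e]
    field_simp
    ring
  have e3 : (k * (1 + ε)) ^ 2 + (k * (θ + ε * ξ)) ^ 2 =
      (k ^ 2 + (k * θ) ^ 2) * (1 + X) := by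
    have e4 : (1 + θ ^ 2) * X = 2 * ε / (1 + q * θ ^ 2) + ε ^ 2 * (1 + ξ ^ 2) := by
      rw [hX]
      field_simp
    have e5 : θ * ξ = 1 / (1 + q * θ ^ 2) - 1 := by
      rw [hξ]
      field_simp
      ring
    have e6 : (k ^ 2 + (k * θ) ^ 2) * (1 + X) = k ^ 2 * ((1 + θ ^ 2) + (1 + θ ^ 2) * X) := by ring
    rw [e6, e4]
    have e7 : (k * (1 + ε)) ^ 2 + (k * (θ + ε * ξ)) ^ 2 =
        k ^ 2 * ((1 + θ ^ 2) + (2 * ε * (1 + θ * ξ) + ε ^ 2 * (1 + ξ ^ 2))) := by ring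
    rw [e7, e5]
    ring
  have hσ0 : 0 < k ^ 2 + (k * θ) ^ 2 := by positivity
  have hs0 : 0 < Real.sqrt (k ^ 2 + (k * θ) ^ 2) := Real.sqrt_pos.2 hσ0
  rw [e1, e2, e3]
  have hle : Real.sqrt (k ^ 2 + (k * θ) ^ 2) ≤ Real.sqrt ((k ^ 2 + (k * θ) ^ 2) * (1 + X)) :=
    Real.sqrt_le_sqrt (by nlinarith)
  have h1 := hs _ _ hs0 hle
  have h2 : Real.sqrt ((k ^ 2 + (k * θ) ^ 2) * (1 + X)) / Real.sqrt (k ^ 2 + (k * θ) ^ 2) =
      Real.sqrt (1 + X) := by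
    rw [Real.sqrt_mul hσ0.le]
    field_simp
  have h3 : Real.sqrt (1 + X) ^ q ≤ Real.exp (X * (q / 2)) := by
    rw [Real.sqrt_eq_rpow, ← Real.rpow_mul (by linarith), Real.exp_mul]
    have : (1 / 2 : ℝ) * q = q / 2 := by ring
    rw [this]
    exact Real.rpow_le_rpow (by linarith) (by linarith [Real.add_one_le_exp X]) (by positivity)
  rw [h2] at h1
  have hU0 : 0 < U (Real.sqrt (k ^ 2 + (k * θ) ^ 2)) := hU.pos _ hs0.le
  have h4 : U (Real.sqrt ((k ^ 2 + (k * θ) ^ 2) * (1 + X))) ≤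
      Real.exp (X * (q / 2)) * U (Real.sqrt (k ^ 2 + (k * θ) ^ 2)) :=
    h1.trans (mul_le_mul_of_nonneg_right h3 hU0.le)
  have h5 : 1 + ε * ξ' ≤ Real.exp (ε * ξ') := by linarith [Real.add_one_le_exp (ε * ξ')]
  have h6 : 0 ≤ U (Real.sqrt ((k ^ 2 + (k * θ) ^ 2) * (1 + X))) := (hU.pos _ (Real.sqrt_nonneg _)).le
  have h7 : (1 + ε * ξ') * U (Real.sqrt ((k ^ 2 + (k * θ) ^ 2) * (1 + X))) ≤
      Real.exp (ε * ξ') * (Real.exp (X * (q / 2)) * U (Real.sqrt (k ^ 2 + (k * θ) ^ 2))) :=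
    mul_le_mul h5 h4 h6 (Real.exp_pos _).le
  refine h7.trans ?_
  rw [← mul_assoc, ← Real.exp_add]
  refine mul_le_mul_of_nonneg_right (Real.exp_le_exp.2 ?_) hU0.le
  have hj := pdj q θ hq
  have e8 : ε * ξ' + X * (q / 2) =
      ε * (q / ((1 + θ ^ 2) * (1 + q * θ ^ 2)) - q * (1 - q * θ ^ 2) / (1 + q * θ ^ 2) ^ 2) +
        ε ^ 2 * (q / 2 * ((1 + ξ ^ 2) / (1 + θ ^ 2))) := by
    rw [hX, hξ']
    field_simp
    ring
  have hξ2 : ξ ^ 2 ≤ q / 4 := by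
    have e9 : ξ ^ 2 = q * (q * θ ^ 2) / (1 + q * θ ^ 2) ^ 2 := by
      rw [hξ]
      field_simp
    rw [e9, div_le_iff₀ (by positivity)]
    have h14 : 0 ≤ q / 4 * (1 - q * θ ^ 2) ^ 2 := by positivity
    linarith [show q / 4 * (1 + q * θ ^ 2) ^ 2 - q * (q * θ ^ 2) =
      q / 4 * (1 - q * θ ^ 2) ^ 2 by ring]
  have h8 : (1 + ξ ^ 2) / (1 + θ ^ 2) ≤ 1 + q / 4 := by
    rw [div_le_iff₀ hB]
    have h15 : 0 ≤ (1 + q / 4) * θ ^ 2 := by positivity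
    linarith [show (1 + q / 4) * (1 + θ ^ 2) = 1 + q / 4 + (1 + q / 4) * θ ^ 2 by ring]
  have h9 : q / 2 * ((1 + ξ ^ 2) / (1 + θ ^ 2)) ≤ q * (1 + q) := by
    have h10 := mul_le_mul_of_nonneg_left h8 (by positivity : (0 : ℝ) ≤ q / 2)
    refine h10.trans ?_
    have h13 : 0 ≤ q ^ 2 := sq_nonneg q
    linarith [show q / 2 * (1 + q / 4) = q / 2 + q ^ 2 / 8 by ring,
      show q * (1 + q) = q + q ^ 2 by ring]
  rw [e8]
  have h11 := mul_le_mul_of_nonneg_left hj hε.le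
  have h12 := mul_le_mul_of_nonneg_left h9 (sq_nonneg ε)
  linarith

/-- PDN. One infinitesimal step for `V`. -/
theorem pdn (pdj : PdjStmt) (pin : PinStmt) : PdnStmt := by
  intro M q U hq hU hs k ε hk hε h
  have hk1 : 0 ≤ k * (1 + ε) := by positivity
  obtain ⟨i1, -, -, -⟩ := pin M U hU (k * (1 + ε)) hk1
  obtain ⟨i0, -, -, -⟩ := pin M U hU k hk.le
  have hinj : InjOn (pg q k ε) (Ioi 0) := (pg_inj hq hk hε h).injective.injOn
  have hd : ∀ τ ∈ Ioi (0 : ℝ), HasDerivWithinAt (pg q k ε) (pg' q k ε τ) (Ioi 0) τ :=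
    fun τ _ => (pg_deriv hq hk τ).hasDerivWithinAt
  have him := pg_image hq hk hε h
  have e1 : vV U (k * (1 + ε)) = ∫ τ in Ioi (0 : ℝ),
      |pg' q k ε τ| • U (Real.sqrt ((k * (1 + ε)) ^ 2 + pg q k ε τ ^ 2)) := by
    unfold vV
    rw [← integral_image_eq_integral_abs_deriv_smul measurableSet_Ioi hd hinj
      (fun ρ => U (Real.sqrt ((k * (1 + ε)) ^ 2 + ρ ^ 2))), him]
  have i2 : IntegrableOn (fun τ : ℝ =>
      |pg' q k ε τ| • U (Real.sqrt ((k * (1 + ε)) ^ 2 + pg q k ε τ ^ 2))) (Ioi 0) := by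
    rw [← integrableOn_image_iff_integrableOn_abs_deriv_smul measurableSet_Ioi hd hinj
      (fun ρ => U (Real.sqrt ((k * (1 + ε)) ^ 2 + ρ ^ 2))), him]
    exact i1
  rw [e1]
  unfold vV
  rw [← integral_const_mul]
  exact setIntegral_mono_on i2 (i0.const_mul _) measurableSet_Ioi
    fun τ hτ => pdn_pt pdj hq hU hs hk hε h hτ

end Pool.Agent.REV.H28
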