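import Pool.Agent.REV.StmtsC
import Pool.Agent.Helper55_PB.VDb

set_option autoImplicit false

/-!
# REV, row PBO: the projection body of order `n - 1` is the projection body
-/

open MeasureTheory Module Set Filter
open scoped RealInnerProductSpace Pointwise Topology ENNReal

namespace Pool.Agent.REV.H28

open Pool.Agent.REV Pool.Agent.Helper55_PB Pool.Agent.Helper28_PB

theorem ballVol_zero : ballVol 0 = 1 := by
  have hs : Subsingleton (EuclideanSpace ℝ (Fin 0)) := ⟨fun a b => by ext i; exact i.elim0⟩
  have b := EuclideanSpace.basisFun (Fin 0) ℝ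
  have h1 := b.volume_parallelepiped
  have h2 : Metric.closedBall (0 : EuclideanSpace ℝ (Fin 0)) 1 = parallelepiped b := by
    have e1 : Metric.closedBall (0 : EuclideanSpace ℝ (Fin 0)) 1 = univ :=
      Subsingleton.eq_univ_of_nonempty ⟨0, Metric.mem_closedBall_self zero_le_one⟩
    have e2 : parallelepiped b = univ := by
      refine Subsingleton.eq_univ_of_nonempty ⟨∑ i, (0 : Fin 0 → ℝ) i • b i, ?_⟩
      exact ⟨0, ⟨le_rfl, zero_le_one⟩, rfl⟩
    rw [e1, e2]
  unfold ballVol
  rw [h2, h1, ENNReal.toReal_one]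

theorem intr_top {F : Type} [NormedAddCommGroup F] [InnerProductSpace ℝ F]
    [FiniteDimensional ℝ F] [MeasurableSpace F] [BorelSpace F] (hd : 0 < finrank ℝ F) (M : Set F)
    (hM : CC M) (a : ℝ) : IsIntrinsicVolume M (finrank ℝ F) a ↔ a = (volume M).toReal := by
  have key : ∀ b : ℕ → ℝ, (∀ r : ℝ, 0 ≤ r →
      (volume (M + Metric.closedBall (0 : F) r)).toReal =
      ∑ j ∈ Finset.range (finrank ℝ F + 1),
        ballVol (finrank ℝ F - j) * b j * r ^ (finrank ℝ F - j)) →
      b (finrank ℝ F) = (volume M).toReal := by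
    intro b hb
    have h := hb 0 le_rfl
    rw [Metric.closedBall_zero, Set.singleton_zero, add_zero, Finset.sum_range_succ,
      Finset.sum_eq_zero, Nat.sub_self, ballVol_zero, pow_zero] at h
    · rw [h]; ring
    · intro j hj
      have hj' := Finset.mem_range.1 hj
      rw [zero_pow (by omega), mul_zero]
  constructor
  · rintro ⟨b, hb1, hb2⟩
    rw [← hb1]
    exact key b hb2
  · intro ha
    have hs := sc_spec (lim_of vd_sum) hd hM
    set b : ℕ → ℝ := fun j => sc M (finrank ℝ F - j) / ballVol (finrank ℝ F - j) with hb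
    have hb2 : ∀ r : ℝ, 0 ≤ r →
      (volume (M + Metric.closedBall (0 : F) r)).toReal =
      ∑ j ∈ Finset.range (finrank ℝ F + 1),
        ballVol (finrank ℝ F - j) * b j * r ^ (finrank ℝ F - j) := by
      intro r hr
      rw [hs r hr, ← Finset.sum_flip]
      refine Finset.sum_congr rfl fun j _ => ?_
      rw [hb]
      simp only
      rw [mul_div_cancel₀ _ (ballVol_pos _).ne']
    exact ⟨b, by rw [key b hb2, ha], hb2⟩

/-- PBO: the projection body of order `n - 1` is the projection body. -/
theorem pbo : PboStmt := by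
  intro E _ _ _ _ _ K L hn hK
  unfold IsProjectionBodyOfOrder IsProjectionBody
  refine and_congr_right fun _ => and_congr_right fun _ => and_congr_right fun _ => ?_
  refine forall_congr' fun u => forall_congr' fun hu => ?_
  have hrank := Helper28_PB.finrank_perp hu
  have hcc : CC K := ⟨hK.compact, hK.convex, hK.interior_nonempty.mono interior_subset⟩
  have h := intr_top (F := (ℝ ∙ u)ᗮ) (by omega) _ (hcc.image ((ℝ ∙ u)ᗮ.orthogonalProjectionOnto))
    (supportFn L u)
  rw [show finrank ℝ E - 1 = finrank ℝ ((ℝ ∙ u)ᗮ : Submodule ℝ E) by omega]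
  exact h

end Pool.Agent.REV.H28
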